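import Mathlib

set_option autoImplicit false

open Algebra

namespace LUVf

universe u

variable {k K : Type u} [Field k] [Field K] [Algebra k K]

theorem pos_rank (V : ValuationSubring K)
    (hres : ∀ x ∈ V, ∃ c : k, V.valuation (x - algebraMap k K c) < 1)
    (hfg : Group.FG (V.ValueGroup)ˣ) (hn : Algebra.trdeg k K ≠ 0) :
    0 < Module.finrank ℤ (Additive (V.ValueGroup)ˣ) := by
  rw [Nat.pos_iff_ne_zero]
  intro h0
  apply hn
  have h1 : Module.Finite ℤ (Additive (V.ValueGroup)ˣ) := by
    rw [Module.Finite.iff_addGroup_fg]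
    exact AddGroup.fg_iff_mul_fg.2 hfg
  have h2 : Module.IsTorsionFree ℤ (Additive (V.ValueGroup)ˣ) := inferInstance
  have h3 : Subsingleton (Additive (V.ValueGroup)ˣ) := Module.finrank_zero_iff.1 h0
  have h4 : ∀ x : K, x ≠ 0 → V.valuation x = 1 := by
    intro x hx
    have hx' : V.valuation x ≠ 0 := (Valuation.ne_zero_iff _).2 hx
    have := Subsingleton.elim (Additive.ofMul (Units.mk0 _ hx')) (Additive.ofMul 1)
    have h5 := congrArg (fun z => ((Additive.toMul z : (V.ValueGroup)ˣ) : V.ValueGroup)) this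
    simpa using h5
  have h6 : Function.Surjective (algebraMap k K) := by
    intro x
    have hxV : x ∈ V := by
      rw [← V.valuation_le_one_iff]
      by_cases hx : x = 0
      · simp [hx]
      · exact (h4 x hx).le
    obtain ⟨c, hc⟩ := hres x hxV
    refine ⟨c, ?_⟩
    by_contra hne
    exact absurd (h4 _ (sub_ne_zero.2 (Ne.symm hne))) hc.ne
  have h7 : Algebra.IsAlgebraic k K := ⟨fun x => by
    obtain ⟨c, rfl⟩ := h6 x
    exact isAlgebraic_algebraMap c⟩
  exact trdeg_eq_zero_iff.2 h7

end LUVf
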